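import Pool.Agent.MP_826def_gt.MU.Core

/-!
The quadratic construction on one cocycle.
-/

namespace Pool.Agent.MP_826def_gt.D59

open Set Topology Pool.Agent.MP_826def_gt.MU

noncomputable section

section ops

variable {E W : FD}

/-- The map `(a, b) ↦ (a + b, (a - b) l)`. -/
def Jm (W : FD) (l : E →L[ℂ] ℂ) : (W × W) →L[ℂ] (W × (E →L[ℂ] W)) :=
  (ContinuousLinearMap.fst ℂ W W + ContinuousLinearMap.snd ℂ W W).prod
    (ContinuousLinearMap.smulRightL ℂ E W l ∘L
      (ContinuousLinearMap.fst ℂ W W - ContinuousLinearMap.snd ℂ W W))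

/-- The map `(y, Φ) ↦ ((y + Φ u) / 2, (y - Φ u) / 2)`. -/
def Rm (W : FD) (u : E) : (W × (E →L[ℂ] W)) →L[ℂ] (W × W) :=
  (2⁻¹ : ℂ) • (ContinuousLinearMap.fst ℂ W (E →L[ℂ] W) +
      ContinuousLinearMap.apply ℂ W u ∘L ContinuousLinearMap.snd ℂ W (E →L[ℂ] W)).prod
    (ContinuousLinearMap.fst ℂ W (E →L[ℂ] W) -
      ContinuousLinearMap.apply ℂ W u ∘L ContinuousLinearMap.snd ℂ W (E →L[ℂ] W))

theorem Jm_apply (l : E →L[ℂ] ℂ) (a : W × W) :
    Jm W l a = (a.1 + a.2, l.smulRight (a.1 - a.2)) := rfl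

theorem Rm_apply (u : E) (y : W × (E →L[ℂ] W)) :
    Rm W u y = ((2⁻¹ : ℂ) • (y.1 + y.2 u), (2⁻¹ : ℂ) • (y.1 - y.2 u)) := rfl

theorem Rm_Jm {u : E} {l : E →L[ℂ] ℂ} (e : l u = 1) (a : W × W) : Rm W u (Jm W l a) = a := by
  rw [Jm_apply, Rm_apply]
  refine Prod.ext ?_ ?_
  · simp only [ContinuousLinearMap.smulRight_apply, e, one_smul]
    module
  · simp only [ContinuousLinearMap.smulRight_apply, e, one_smul]
    module

/-- The idempotent of the quadratic construction. -/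
def Qop (u : E) (l : E →L[ℂ] ℂ) (p q : W →L[ℂ] W) :
    (W × (E →L[ℂ] W)) →L[ℂ] (W × (E →L[ℂ] W)) := Jm W l ∘L p.prodMap q ∘L Rm W u

theorem Qop_apply (u : E) (l : E →L[ℂ] ℂ) (p q : W →L[ℂ] W) (y : W × (E →L[ℂ] W)) :
    Qop u l p q y = Jm W l (p ((2⁻¹ : ℂ) • (y.1 + y.2 u)), q ((2⁻¹ : ℂ) • (y.1 - y.2 u))) := rfl

theorem Jm_neg (l : E →L[ℂ] ℂ) (a b : W) : Jm W (-l) (b, a) = Jm W l (a, b) := by
  rw [Jm_apply, Jm_apply]
  refine Prod.ext (add_comm _ _) (ContinuousLinearMap.ext fun e => ?_)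
  simp only [ContinuousLinearMap.smulRight_apply, neg_apply]
  module

theorem Qop_neg (u : E) (l : E →L[ℂ] ℂ) (p q : W →L[ℂ] W) : Qop (-u) (-l) q p = Qop u l p q := by
  refine ContinuousLinearMap.ext fun y => ?_
  rw [Qop_apply, Qop_apply, Jm_neg, map_neg, sub_neg_eq_add, ← sub_eq_add_neg]

theorem Qop_J {u : E} {l : E →L[ℂ] ℂ} (e : l u = 1) (p q : W →L[ℂ] W) (a : W × W) :
    Qop u l p q (Jm W l a) = Jm W l (p a.1, q a.2) := by
  show Jm W l (p.prodMap q (Rm W u (Jm W l a))) = _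
  rw [Rm_Jm e]
  rfl

theorem Qop_idem {u : E} {l : E →L[ℂ] ℂ} (e : l u = 1) {p q : W →L[ℂ] W} (hp : p ∘L p = p)
    (hq : q ∘L q = q) : Qop u l p q ∘L Qop u l p q = Qop u l p q := by
  refine ContinuousLinearMap.ext fun y => ?_
  have h1 : ∀ w, p (p w) = p w := fun w => congrArg (fun r : W →L[ℂ] W => r w) hp
  have h2 : ∀ w, q (q w) = q w := fun w => congrArg (fun r : W →L[ℂ] W => r w) hq
  rw [ContinuousLinearMap.comp_apply, Qop_apply u l p q y, Qop_J e, h1, h2]

theorem Qop_diag (u : E) (l : E →L[ℂ] ℂ) (p : W →L[ℂ] W) :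
    Qop u l p p = p.prodMap (Bun.conj (l.smulRight u) p) := by
  refine ContinuousLinearMap.ext fun y => ?_
  rw [Qop_apply, Jm_apply]
  refine Prod.ext ?_ (ContinuousLinearMap.ext fun e => ?_)
  · show p _ + p _ = p y.1
    rw [← map_add]
    congr 1
    module
  · show l e • (p _ - p _) = p (y.2 (l e • u))
    rw [← map_sub, map_smul, map_smul]
    congr 2
    module

variable {T : Type} [TopologicalSpace T] {N : Set T}

theorem contOn_J {l : T → E →L[ℂ] ℂ} {a b : T → W} (hl : ContinuousOn l N)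
    (ha : ContinuousOn a N) (hb : ContinuousOn b N) :
    ContinuousOn (fun t => Jm W (l t) (a t, b t)) N := by
  simp only [Jm_apply]
  refine (ha.add hb).prodMk (continuousOn_clm_apply.2 fun e => ?_)
  simp only [ContinuousLinearMap.smulRight_apply]
  exact (hl.clm_apply continuousOn_const).smul (ha.sub hb)

theorem contOn_Q {u : T → E} {l : T → E →L[ℂ] ℂ} {p q : T → W →L[ℂ] W} (hu : ContinuousOn u N)
    (hl : ContinuousOn l N) (hp : ContinuousOn p N) (hq : ContinuousOn q N) :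
    ContinuousOn (fun t => Qop (u t) (l t) (p t) (q t)) N := by
  refine continuousOn_clm_apply.2 fun y => ?_
  simp only [Qop_apply]
  have h1 : ContinuousOn (fun t => y.2 (u t)) N := y.2.continuous.comp_continuousOn hu
  exact contOn_J hl (hp.clm_apply ((continuousOn_const.add h1).const_smul _))
    (hq.clm_apply ((continuousOn_const.sub h1).const_smul _))

end ops

/-- The cocycle with the points `w + a`, `w - a`. -/
abbrev Qraw {X T : Type} (c : Raw X) {E : FD} (u : T → E) (l : T → E →L[ℂ] ℂ) (χ : T → X)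
    (A : T → E →L[ℂ] c.V) : Raw T :=
  ⟨c.V, c.W.prod (E.hom c.W),
    {z | (χ z.1, z.2 + A z.1 (u z.1)) ∈ c.O ∧ (χ z.1, z.2 - A z.1 (u z.1)) ∈ c.O},
    fun z => Qop (u z.1) (l z.1) (c.p (χ z.1, z.2 + A z.1 (u z.1)))
      (c.p (χ z.1, z.2 - A z.1 (u z.1))),
    fun z => Jm c.W (l z.1) (c.s (χ z.1, z.2 + A z.1 (u z.1)), c.s (χ z.1, z.2 - A z.1 (u z.1)))⟩

/-- A line bundle with unit vectors that are determined up to sign. -/
structure Cov (S : Type) [TopologicalSpace S] {B : Type} [TopologicalSpace B] (σ : Bun B) where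
  q : C(S, B)
  u : C(S, σ.W)
  l : C(S, σ.W →L[ℂ] ℂ)
  surj : Function.Surjective q
  lu : ∀ s, l s (u s) = 1
  pq : ∀ s, σ.p (q s) = (l s).smulRight (u s)
  fib : ∀ s s', q s = q s' → (u s' = u s ∧ l s' = l s) ∨ (u s' = -u s ∧ l s' = -l s)

variable {S B X T : Type} [TopologicalSpace S] [TopologicalSpace B] [TopologicalSpace X]
  [TopologicalSpace T] {σ : Bun B}

namespace Cov

variable (D : Cov S σ)

/-- A chosen point over `b`. -/
def sec (b : B) : S := Function.surjInv D.surj b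

theorem q_sec (b : B) : D.q (D.sec b) = b := Function.surjInv_eq D.surj b

/-- The quadratic construction over a space `T` with maps to `B`, `X` and `Hom`. -/
abbrev Q (c : Raw X) (β : T → B) (χ : T → X) (A : T → σ.W →L[ℂ] c.V) : Raw T :=
  Qraw c (fun t => D.u (D.sec (β t))) (fun t => D.l (D.sec (β t))) χ A

omit [TopologicalSpace X] [TopologicalSpace T] in
theorem Q_at (c : Raw X) (β : T → B) (χ : T → X) (A : T → σ.W →L[ℂ] c.V) (s : S) (t : T)
    (w : c.V) (e : D.q s = β t) :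
    ((t, w) ∈ (D.Q c β χ A).O ↔
      (χ t, w + A t (D.u s)) ∈ c.O ∧ (χ t, w - A t (D.u s)) ∈ c.O) ∧
    (D.Q c β χ A).p (t, w) =
      Qop (D.u s) (D.l s) (c.p (χ t, w + A t (D.u s))) (c.p (χ t, w - A t (D.u s))) ∧
    (D.Q c β χ A).s (t, w) =
      Jm c.W (D.l s) (c.s (χ t, w + A t (D.u s)), c.s (χ t, w - A t (D.u s))) := by
  rcases D.fib s (D.sec (β t)) (e.trans (D.q_sec _).symm) with ⟨h1, h2⟩ | ⟨h1, h2⟩
  · simp only [mem_ofPred_eq, h1, h2, and_self]
  · simp only [mem_ofPred_eq, h1, h2, map_neg, sub_neg_eq_add, ← sub_eq_add_neg, Qop_neg, Jm_neg,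
      and_true]
    exact and_comm

theorem Q_good [CompactSpace S] [T2Space B] [T2Space X] {c : Raw X} (hc : c.Good) {β : T → B}
    {χ : T → X} {A : T → σ.W →L[ℂ] c.V} (hP : IsProperMap fun t => ((β t, χ t), A t))
    (hA : ∀ t, A t ∘L σ.p (β t) = A t) : (D.Q c β χ A).Good := by
  have cβ : Continuous β := hP.continuous.fst.fst
  have cχ : Continuous χ := hP.continuous.fst.snd
  have cA : Continuous A := hP.continuous.snd
  have hF : IsClosed {y : S × (T × c.V) | D.q y.1 = β y.2.1} :=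
    isClosed_eq (by fun_prop) (by fun_prop)
  let π : {y : S × (T × c.V) | D.q y.1 = β y.2.1} → T × c.V := fun y => y.1.2
  have hπ : IsProperMap π := isProperMap_snd_of_compactSpace.comp hF.isProperMap_subtypeVal
  have hq : IsQuotientMap π := hπ.isClosedMap.isQuotientMap hπ.continuous fun z =>
    ⟨⟨(D.sec (β z.1), z), D.q_sec _⟩, rfl⟩
  let f1 : {y : S × (T × c.V) | D.q y.1 = β y.2.1} → X × c.V := fun y =>
    (χ y.1.2.1, y.1.2.2 + A y.1.2.1 (D.u y.1.1))
  let f2 : {y : S × (T × c.V) | D.q y.1 = β y.2.1} → X × c.V := fun y =>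
    (χ y.1.2.1, y.1.2.2 - A y.1.2.1 (D.u y.1.1))
  have cf : Continuous fun y : {y : S × (T × c.V) | D.q y.1 = β y.2.1} =>
      A y.1.2.1 (D.u y.1.1) :=
    (cA.comp (by fun_prop)).clm_apply (D.u.continuous.comp (by fun_prop))
  have c1 : Continuous f1 := (cχ.comp (by fun_prop)).prodMk (Continuous.add (by fun_prop) cf)
  have c2 : Continuous f2 := (cχ.comp (by fun_prop)).prodMk (Continuous.sub (by fun_prop) cf)
  have hO : π ⁻¹' (D.Q c β χ A).O = f1 ⁻¹' c.O ∩ f2 ⁻¹' c.O :=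
    Set.ext fun y => (D.Q_at c β χ A y.1.1 y.1.2.1 y.1.2.2 y.2).1
  have op : IsOpen (D.Q c β χ A).O := by
    rw [← hq.isOpen_preimage, hO]
    exact (hc.op.preimage c1).inter (hc.op.preimage c2)
  have cu : Continuous fun y : {y : S × (T × c.V) | D.q y.1 = β y.2.1} => D.u y.1.1 := by
    fun_prop
  have cl : Continuous fun y : {y : S × (T × c.V) | D.q y.1 = β y.2.1} => D.l y.1.1 := by
    fun_prop
  refine ⟨op, ?_, ?_, fun z hz => Qop_idem (D.lu _) (hc.idem _ hz.1) (hc.idem _ hz.2),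
    fun z hz => ?_, ?_⟩
  · rw [hq.continuousOn_isOpen_iff op, hO]
    refine (contOn_Q cu.continuousOn cl.continuousOn
      (hc.cp.comp c1.continuousOn fun y hy => hy.1)
      (hc.cp.comp c2.continuousOn fun y hy => hy.2)).congr fun y _ => ?_
    exact (D.Q_at c β χ A y.1.1 y.1.2.1 y.1.2.2 y.2).2.1
  · rw [hq.continuousOn_isOpen_iff op, hO]
    refine (contOn_J cl.continuousOn (hc.cs.comp c1.continuousOn fun y hy => hy.1)
      (hc.cs.comp c2.continuousOn fun y hy => hy.2)).congr fun y _ => ?_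
    exact (D.Q_at c β χ A y.1.1 y.1.2.1 y.1.2.2 y.2).2.2
  · show Qop _ _ _ _ (Jm _ _ _) = Jm _ _ _
    rw [Qop_J (D.lu _), hc.sec _ hz.1, hc.sec _ hz.2]
  · have hK : IsCompact ((univ : Set S) ×ˢ
        ((c.Z ×ˢ c.Z) ∩ {y : (X × c.V) × (X × c.V) | y.1.1 = y.2.1})) :=
      isCompact_univ.prod ((hc.cpt.prod hc.cpt).inter_right
        (isClosed_eq (by fun_prop) (by fun_prop)))
    let g : S × ((X × c.V) × (X × c.V)) → ((B × X) × (σ.W →L[ℂ] c.V)) × c.V := fun y =>
      (((D.q y.1, y.2.1.1), (D.l y.1).smulRight ((2⁻¹ : ℂ) • (y.2.1.2 - y.2.2.2))),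
        (2⁻¹ : ℂ) • (y.2.1.2 + y.2.2.2))
    have cg : Continuous g := by
      refine Continuous.prodMk (Continuous.prodMk (by fun_prop)
        (continuous_clm_apply.2 fun e => ?_)) (by fun_prop)
      simp only [ContinuousLinearMap.smulRight_apply]
      exact Continuous.smul ((D.l.continuous.comp continuous_fst).clm_apply continuous_const)
        (by fun_prop)
    have hZ := (hP.prodMap (isProperMap_id (X := c.V))).isCompact_preimage (hK.image cg)
    refine (Set.ext fun z => ⟨fun hz => ?_, ?_⟩ : (D.Q c β χ A).Z = _) ▸ hZ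
    · have h0 := congrArg (Rm c.W (D.u (D.sec (β z.1)))) hz.2
      rw [map_zero] at h0
      have h1 := (Rm_Jm (D.lu _) _).symm.trans h0
      refine ⟨(D.sec (β z.1), ((χ z.1, z.2 + A z.1 (D.u (D.sec (β z.1)))),
        (χ z.1, z.2 - A z.1 (D.u (D.sec (β z.1)))))),
        ⟨mem_univ _, ⟨⟨hz.1.1, congrArg Prod.fst h1⟩, ⟨hz.1.2, congrArg Prod.snd h1⟩⟩, rfl⟩, ?_⟩
      refine Prod.ext (Prod.ext (Prod.ext (D.q_sec _) rfl) ?_) ?_
      · refine ContinuousLinearMap.ext fun e => ?_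
        have h2 := congrArg (fun r : σ.W →L[ℂ] c.V => r e) (hA z.1)
        have h3 := D.pq (D.sec (β z.1))
        rw [D.q_sec] at h3
        simp only [h3, ContinuousLinearMap.comp_apply, ContinuousLinearMap.smulRight_apply,
          map_smul] at h2
        show D.l _ e • _ = A z.1 e
        rw [← h2]
        congr 1
        module
      · show (2⁻¹ : ℂ) • (_ + _) = z.2
        module
    · rintro ⟨⟨s, z1, z2⟩, ⟨-, ⟨h1, h2⟩, h3⟩, h4⟩
      have e1 : D.q s = β z.1 := congrArg (fun r => r.1.1.1) h4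
      have e2 : z1.1 = χ z.1 := congrArg (fun r => r.1.1.2) h4
      have e3 : (D.l s).smulRight ((2⁻¹ : ℂ) • (z1.2 - z2.2)) = A z.1 :=
        congrArg (fun r => r.1.2) h4
      have e4 : (2⁻¹ : ℂ) • (z1.2 + z2.2) = z.2 := congrArg (fun r => r.2) h4
      have e5 : z1.1 = z2.1 := h3
      have e6 : A z.1 (D.u s) = (2⁻¹ : ℂ) • (z1.2 - z2.2) := by
        rw [← e3, ContinuousLinearMap.smulRight_apply, D.lu, one_smul]
      have e7 : (χ z.1, z.2 + A z.1 (D.u s)) = z1 := by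
        refine Prod.ext e2.symm ?_
        show z.2 + _ = z1.2
        rw [e6, ← e4]
        module
      have e8 : (χ z.1, z.2 - A z.1 (D.u s)) = z2 := by
        refine Prod.ext (e2.symm.trans e5) ?_
        show z.2 - _ = z2.2
        rw [e6, ← e4]
        module
      obtain ⟨a1, -, a3⟩ := D.Q_at c β χ A s z.1 z.2 e1
      rw [e7, e8] at a1 a3
      refine ⟨a1.2 ⟨h1.1, h2.1⟩, a3.trans ?_⟩
      rw [h1.2, h2.2]
      exact map_zero _

end Cov

end

end Pool.Agent.MP_826def_gt.D59
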